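import Mathlib

/-!
The medial graph of a regular map attached to a group generated by `s` (order 2) and `b`
(order 3); its automorphism group contains the group with index at most two.
-/

namespace Pool.Agent.H.MP_a8e1ec_co

/-- the hypotheses on the group -/
structure Dat (G : Type) [Group G] where
  s : G
  β : Bool → G
  ss : s * s = 1
  βi : ∀ e, β (!e) = (β e)⁻¹
  ββ : ∀ e, β e * β e = β (!e)
  s1 : s ≠ 1
  β1 : ∀ e, β e ≠ 1
  h1 : ∀ e, s * β e ≠ 1
  h2 : ∀ e f, s * β e * (s * β f) ≠ 1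
  h3 : ∀ e f g, s * β e * (s * β f * (s * β g)) ≠ 1
  rel : (s * β true) ^ 13 = 1
  h13 : ∀ l : List Bool, l.length = 13 → (l.map fun e => s * β e).prod = 1 →
    l = List.replicate 13 true ∨ l = List.replicate 13 false
  gen : Subgroup.closure {s, β true} = ⊤
  nf : ∀ H : Subgroup G, H.FiniteIndex → H = ⊤

variable {G : Type} [Group G] (D : Dat G)

/-- cosets of `{1, s}` -/
def Dat.st : Setoid G where
  r g h := h = g ∨ h = g * D.s
  iseqv := ⟨fun _ => Or.inl rfl, by
    rintro g h (rfl | rfl)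
    · exact Or.inl rfl
    · exact Or.inr (by rw [mul_assoc, D.ss, mul_one]), by
    rintro g h k (rfl | rfl) (rfl | rfl)
    · exact Or.inl rfl
    · exact Or.inr rfl
    · exact Or.inr rfl
    · exact Or.inl (by rw [mul_assoc, D.ss, mul_one])⟩

/-- vertices -/
def Dat.V : Type := Quotient D.st

/-- the vertex of a group element -/
def Dat.vx (g : G) : D.V := Quotient.mk D.st g

theorem mk_eq {g h : G} : D.vx g = D.vx h ↔ (h = g ∨ h = g * D.s) := Quotient.eq (r := D.st)

theorem mk_surj (x : D.V) : ∃ g, x = D.vx g := by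
  obtain ⟨g, rfl⟩ := Quotient.exists_rep x
  exact ⟨g, rfl⟩

theorem mk_s (g : G) : D.vx (g * D.s) = D.vx g := ((mk_eq D).2 (Or.inr rfl)).symm

theorem sinv : D.s⁻¹ = D.s := inv_eq_of_mul_eq_one_right D.ss

theorem βs (e : Bool) : D.β e ≠ D.s := fun h => D.h1 e (by rw [h, D.ss])

theorem βmul (e f : Bool) : D.β e * D.β f = 1 ∨ D.β e * D.β f = D.β (!e) := by
  by_cases h : f = e
  · right; rw [h, D.ββ]
  · left
    have : f = !e := by cases e <;> cases f <;> simp_all
    rw [this, D.βi, mul_inv_cancel]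

theorem βmul' (e f : Bool) : D.β e * D.β f ≠ D.s := by
  rcases βmul D e f with h | h <;> rw [h]
  · exact D.s1.symm
  · exact βs D _

theorem f1 (g : G) (e : Bool) : D.vx (g * D.β e) ≠ D.vx g := by
  intro h
  rcases (mk_eq D).1 h.symm with h | h
  · exact D.β1 e (by simpa using h)
  · exact βs D e (mul_left_cancel h)

theorem f2a {g : G} {e f : Bool} (h : D.vx (g * D.β e) = D.vx (g * D.β f)) : e = f := by
  by_contra hne
  have hf : f = !e := by cases e <;> cases f <;> simp_all
  rw [hf, ← D.ββ, ← mul_assoc] at h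
  exact f1 D _ _ h.symm

theorem f2b (g : G) (e f : Bool) : D.vx (g * D.β e) ≠ D.vx (g * D.s * D.β f) := by
  intro h
  rcases (mk_eq D).1 h with h | h
  · rw [mul_assoc] at h
    apply βmul' D e (!f)
    rw [D.βi, ← mul_left_cancel h, mul_inv_cancel_right]
  · rw [mul_assoc, mul_assoc] at h
    apply D.h2 f (!e)
    rw [mul_left_cancel h, D.βi, mul_assoc, ← mul_assoc D.s, D.ss, one_mul, mul_inv_cancel]

theorem f2 {g h : G} {e f : Bool} (h1 : D.vx g = D.vx h)
    (h2 : D.vx (g * D.β e) = D.vx (h * D.β f)) : g = h ∧ e = f := by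
  rcases (mk_eq D).1 h1 with rfl | rfl
  · exact ⟨rfl, f2a D h2⟩
  · exact absurd h2 (f2b D _ _ _)

/-- the medial graph -/
def Dat.M : SimpleGraph D.V where
  Adj x y := ∃ g e, x = D.vx g ∧ y = D.vx (g * D.β e)
  symm := ⟨by
    rintro _ _ ⟨g, e, rfl, rfl⟩
    exact ⟨_, !e, rfl, by rw [D.βi, mul_inv_cancel_right]⟩⟩
  loopless := ⟨by
    rintro _ ⟨g, e, rfl, h⟩
    exact f1 D g e h.symm⟩

theorem adj0 (g : G) (e : Bool) : D.M.Adj (D.vx g) (D.vx (g * D.β e)) := ⟨g, e, rfl, rfl⟩

theorem adj_iff {g : G} {y : D.V} : D.M.Adj (D.vx g) y ↔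
    ∃ e, y = D.vx (g * D.β e) ∨ y = D.vx (g * D.s * D.β e) := by
  constructor
  · rintro ⟨h, e, h1, rfl⟩
    rcases (mk_eq D).1 h1 with rfl | rfl
    · exact ⟨e, Or.inl rfl⟩
    · exact ⟨e, Or.inr rfl⟩
  · rintro ⟨e, rfl | rfl⟩
    · exact adj0 D g e
    · exact ⟨_, e, (mk_s D g).symm, rfl⟩

theorem f3 {g : G} {e : Bool} {z : D.V} (h1 : D.M.Adj (D.vx g) z)
    (h2 : D.M.Adj (D.vx (g * D.β e)) z) : z = D.vx (g * D.β (!e)) := by
  obtain ⟨c, h | h⟩ := (adj_iff D).1 h2
  · rw [mul_assoc] at h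
    rcases βmul D e c with h' | h' <;> rw [h'] at h
    · rw [h, mul_one] at h1; exact absurd h1 (D.M.irrefl)
    · exact h
  · exfalso
    obtain ⟨d, h' | h'⟩ := (adj_iff D).1 h1
    · rw [h'] at h
      by_cases hd : d = e
      · rw [hd, ← mk_s D] at h
        exact f1 D _ _ h.symm
      · have : d = !e := by cases e <;> cases d <;> simp_all
        rw [this, ← D.ββ, ← mul_assoc] at h
        exact f2b D _ _ _ h
    · rw [h'] at h
      rcases (mk_eq D).1 h with h | h
      · simp only [mul_assoc] at h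
        have h := mul_left_cancel h
        have k : D.s * (D.β d * D.β (!c)) * (D.s * D.β (!e)) = 1 := by
          rw [← mul_assoc D.s, ← h, D.βi, D.βi]
          simp only [mul_assoc, mul_inv_cancel_left]
          rw [← mul_assoc D.s, D.ss, one_mul, mul_inv_cancel]
        rcases βmul D d (!c) with h' | h' <;> rw [h'] at k
        · rw [mul_one, ← mul_assoc, D.ss, one_mul] at k; exact D.β1 _ k
        · exact D.h2 _ _ k
      · simp only [mul_assoc] at h
        have h := mul_left_cancel h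
        apply D.h3 d (!c) (!e)
        have : D.s * D.β d * (D.s * D.β (!c) * (D.s * D.β (!e))) =
            D.s * (D.β d * D.s) * (D.β (!c) * (D.s * D.β (!e))) := by simp only [mul_assoc]
        rw [this, ← h, D.βi, D.βi]
        simp only [mul_assoc, mul_inv_cancel_left]
        rw [← mul_assoc D.s, D.ss, one_mul, mul_inv_cancel]

theorem deg (x : D.V) : (D.M.neighborSet x).ncard = 4 := by
  obtain ⟨g, rfl⟩ := mk_surj D x
  rw [Set.ncard_eq_four]
  refine ⟨D.vx (g * D.β true), D.vx (g * D.β false), D.vx (g * D.s * D.β true),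
    D.vx (g * D.s * D.β false), fun h => by simpa using f2a D h, f2b D _ _ _, f2b D _ _ _,
    f2b D _ _ _, f2b D _ _ _, fun h => by simpa using f2a D h, ?_⟩
  ext y
  rw [SimpleGraph.mem_neighborSet, adj_iff]
  simp only [Bool.exists_bool, Set.mem_insert_iff, Set.mem_singleton_iff]
  tauto

/-- left multiplication on vertices -/
def act (a : G) : D.V → D.V := Quotient.map (sa := D.st) (sb := D.st) (fun g => a * g) (by
  rintro g h (rfl | rfl)
  · exact Or.inl rfl
  · exact Or.inr (mul_assoc _ _ _).symm)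

theorem act_mk (a g : G) : act D a (D.vx g) = D.vx (a * g) := rfl

theorem act_mul (a c : G) (x : D.V) : act D (a * c) x = act D a (act D c x) := by
  obtain ⟨g, rfl⟩ := mk_surj D x
  rw [act_mk, act_mk, act_mk, mul_assoc]

theorem act_one (x : D.V) : act D 1 x = x := by
  obtain ⟨g, rfl⟩ := mk_surj D x
  rw [act_mk, one_mul]

theorem act_adj (a : G) {x y : D.V} (h : D.M.Adj x y) : D.M.Adj (act D a x) (act D a y) := by
  obtain ⟨g, e, rfl, rfl⟩ := h
  exact ⟨a * g, e, rfl, by rw [act_mk, mul_assoc]⟩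

/-- left multiplication as an automorphism -/
def lm (a : G) : D.M ≃g D.M where
  toFun := act D a
  invFun := act D a⁻¹
  left_inv v := by rw [← act_mul, inv_mul_cancel, act_one]
  right_inv v := by rw [← act_mul, mul_inv_cancel, act_one]
  map_rel_iff' := by
    intro x y
    refine ⟨fun h => ?_, act_adj D a⟩
    have := act_adj D a⁻¹ h
    change D.M.Adj (act D a⁻¹ (act D a x)) (act D a⁻¹ (act D a y)) at this
    rwa [← act_mul, ← act_mul, inv_mul_cancel, act_one, act_one] at this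

/-- left multiplication as a homomorphism -/
def lmh : G →* (D.M ≃g D.M) :=
  MonoidHom.mk' (lm D) (fun t r => RelIso.ext fun v => act_mul D t r v)

theorem lmh_mk (a g : G) : lmh D a (D.vx g) = D.vx (a * g) := rfl

theorem gen_ind {P : G → Prop} (h1 : P 1) (hs : ∀ g, P g → P (g * D.s))
    (hb : ∀ g, P g → P (g * D.β true)) (g : G) : P g := by
  have : ∀ t : G, ∀ g, P g ↔ P (g * t) := by
    intro t
    have ht : t ∈ Subgroup.closure {D.s, D.β true} := by rw [D.gen]; trivial
    induction ht using Subgroup.closure_induction with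
    | mem t ht =>
      intro g
      rcases ht with rfl | rfl
      · exact ⟨hs g, fun h => by simpa [mul_assoc, D.ss] using hs _ h⟩
      · refine ⟨hb g, fun h => ?_⟩
        have := hb _ (hb _ h)
        rwa [mul_assoc, mul_assoc, D.ββ, D.βi, mul_inv_cancel, mul_one] at this
    | one => intro g; rw [mul_one]
    | mul x y _ _ hx hy => intro g; rw [← mul_assoc, ← hy, ← hx]
    | inv x _ hx => intro g; rw [hx (g * x⁻¹), inv_mul_cancel_right]
  simpa using (this g 1).1 h1

theorem arc (φ : D.M ≃g D.M) (g : G) : ∃ h e, φ (D.vx g) = D.vx h ∧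
    φ (D.vx (g * D.β true)) = D.vx (h * D.β e) := φ.map_adj_iff.2 (adj0 D g true)

theorem rigid (φ : D.M ≃g D.M) (g g' : G) (h1 : φ (D.vx g) = D.vx g')
    (h2 : φ (D.vx (g * D.β true)) = D.vx (g' * D.β true)) : φ = lmh D (g' * g⁻¹) := by
  choose P E hP hE using arc D φ
  have third : ∀ g, φ (D.vx (g * D.β false)) = D.vx (P g * D.β (!E g)) := by
    intro g
    apply f3
    · rw [← hP]; exact φ.map_adj_iff.2 (adj0 D g false)
    · rw [← hE]
      apply φ.map_adj_iff.2
      have := adj0 D (g * D.β true) true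
      rwa [mul_assoc, D.ββ] at this
  have sb : ∀ g, P (g * D.β true) = P g * D.β (E g) ∧ E (g * D.β true) = E g := by
    intro g
    apply f2 D
    · rw [← hP, hE]
    · rw [← hE, mul_assoc, D.ββ, mul_assoc, D.ββ]; exact third g
  have ss : ∀ g, P (g * D.s) = P g * D.s := by
    intro g
    have a1 : D.vx (P g) = D.vx (P (g * D.s)) := by rw [← hP, ← hP, mk_s]
    rcases (mk_eq D).1 a1 with h | h
    · exfalso
      have a2 := hE (g * D.s)
      rw [h] at a2
      by_cases he : E (g * D.s) = E g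
      · rw [he, ← hE] at a2
        exact f2b D _ _ _ (φ.injective a2).symm
      · have : E (g * D.s) = !E g := by
          revert he; cases E g <;> cases E (g * D.s) <;> simp
        rw [this, ← third] at a2
        exact f2b D _ _ _ (φ.injective a2).symm
    · exact h
  let L : ℕ → G → List Bool := fun k => Nat.rec (fun _ => [])
    (fun _ f g => E (g * D.s) :: f (g * D.s * D.β true)) k
  have Ls : ∀ k g, L (k + 1) g = E (g * D.s) :: L k (g * D.s * D.β true) := fun _ _ => rfl
  have Ll : ∀ k g, (L k g).length = k := by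
    intro k
    induction k with
    | zero => intro g; rfl
    | succ k ih => intro g; rw [Ls, List.length_cons, ih]
  have LP : ∀ k g, P (g * (D.s * D.β true) ^ k) =
      P g * ((L k g).map fun e => D.s * D.β e).prod := by
    intro k
    induction k with
    | zero => intro g; simp [L]
    | succ k ih =>
      intro g
      rw [Ls, List.map_cons, List.prod_cons, pow_succ', ← mul_assoc, ← mul_assoc, ih, (sb _).1, ss]
      simp only [mul_assoc]
  have Es : ∀ g, E (g * D.s) = E g := by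
    have k : ∀ g, E (g * D.s) = E (g * D.s * D.β true * D.s) := by
      intro g
      have a := LP 13 g
      rw [D.rel, mul_one] at a
      have := D.h13 _ (Ll 13 g) (by simpa using a.symm)
      rw [show L 13 g = E (g * D.s) :: E (g * D.s * D.β true * D.s) ::
        L 11 (g * D.s * D.β true * D.s * D.β true) from rfl] at this
      rcases this with h | h <;> simp only [List.replicate_succ, List.cons.injEq] at h <;>
        rw [h.1, h.2.1]
    intro g
    have a := k (g * (D.β true)⁻¹ * D.s)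
    rw [mul_assoc _ D.s D.s, D.ss, mul_one, inv_mul_cancel_right] at a
    have c := (sb (g * (D.β true)⁻¹)).2
    rw [inv_mul_cancel_right] at c
    rw [← a, c]
  have Ec : ∀ t, E t = E 1 := gen_ind D rfl (fun g h => by rw [Es, h]) (fun g h => by rw [(sb g).2, h])
  obtain ⟨p1, p2⟩ := f2 D ((hP g).symm.trans h1) ((hE g).symm.trans h2)
  have Et : ∀ t, E t = true := fun t => by rw [Ec t, ← Ec g, p2]
  have Pc : ∀ t, P t = P 1 * t := gen_ind D (mul_one _).symm
    (fun g h => by rw [ss, h, mul_assoc]) (fun g h => by rw [(sb g).1, h, Et, mul_assoc])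
  apply RelIso.ext
  intro x
  obtain ⟨t, rfl⟩ := mk_surj D x
  rw [lmh_mk, hP, Pc t, ← p1, Pc g, mul_inv_cancel_right]

theorem all_mem (Γ : Subgroup (D.M ≃g D.M)) (S : Finset D.V)
    (hS : ∀ v, ∃ r ∈ S, ∃ φ ∈ Γ, φ r = v) (a : G) : lmh D a ∈ Γ := by
  choose r hr φ hφ hv using hS
  choose P E hP hE using fun g : G => arc D (φ (D.vx g))⁻¹ g
  have hfin : {h : G | D.vx h ∈ S}.Finite := by
    refine (S.finite_toSet.biUnion (t := fun v => {Quotient.out v, Quotient.out v * D.s})
      fun v _ => (Set.finite_singleton _).insert _).subset fun h hh => ?_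
    refine Set.mem_biUnion hh ?_
    exact (mk_eq D).1 (Quotient.out_eq (s := D.st) (D.vx h))
  haveI := hfin.to_subtype
  have hPS : ∀ g, D.vx (P g) ∈ S := fun g => by
    rw [← hP]
    have : (φ (D.vx g))⁻¹ (D.vx g) = r (D.vx g) := by
      nth_rewrite 2 [← hv (D.vx g)]
      exact (φ (D.vx g)).symm_apply_apply _
    rw [this]; exact hr _
  have same : ∀ g g', P g = P g' → E g = E g' → g' * g⁻¹ ∈ Γ.comap (lmh D) := by
    intro g g' h1 h2
    rw [Subgroup.mem_comap, ← rigid D (φ (D.vx g') * (φ (D.vx g))⁻¹) g g']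
    · exact Γ.mul_mem (hφ _) (Γ.inv_mem (hφ _))
    · change φ (D.vx g') ((φ (D.vx g))⁻¹ (D.vx g)) = _
      rw [hP, h1, ← hP]
      exact (φ (D.vx g')).apply_symm_apply _
    · change φ (D.vx g') ((φ (D.vx g))⁻¹ (D.vx (g * D.β true))) = _
      rw [hE, h1, h2, ← hE]
      exact (φ (D.vx g')).apply_symm_apply _
  haveI : Finite (G ⧸ Γ.comap (lmh D)) := by
    refine Finite.of_injective (β := {h : G | D.vx h ∈ S} × Bool)
      (fun q => (⟨P q.out⁻¹, hPS _⟩, E q.out⁻¹)) fun q q' h => ?_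
    have := same _ _ (congrArg (fun t => t.1.1) h) (congrArg Prod.snd h)
    rw [inv_inv, ← QuotientGroup.eq, QuotientGroup.out_eq', QuotientGroup.out_eq'] at this
    exact this.symm
  have := D.nf (Γ.comap (lmh D)) Subgroup.finiteIndex_of_finite_quotient
  have h : a ∈ Γ.comap (lmh D) := by rw [this]; trivial
  exact h

theorem edge {x y : D.V} (h : D.M.Adj x y) : ∃ a,
    (x = lmh D a (D.vx 1) ∧ y = lmh D a (D.vx (D.β true))) ∨
    (y = lmh D a (D.vx 1) ∧ x = lmh D a (D.vx (D.β true))) := by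
  obtain ⟨g, e, rfl, rfl⟩ := h
  cases e
  · refine ⟨g * D.β false, Or.inr ⟨by rw [lmh_mk, mul_one], ?_⟩⟩
    rw [lmh_mk, mul_assoc, show D.β false = (D.β true)⁻¹ from D.βi true, inv_mul_cancel, mul_one]
  · exact ⟨g, Or.inl ⟨by rw [lmh_mk, mul_one], rfl⟩⟩

theorem trans (u v : D.V) : ∃ φ : D.M ≃g D.M, φ u = v := by
  obtain ⟨g, rfl⟩ := mk_surj D u
  obtain ⟨h, rfl⟩ := mk_surj D v
  exact ⟨lmh D (h * g⁻¹), by rw [lmh_mk, inv_mul_cancel_right]⟩

theorem conn : D.M.Connected := by
  have key : ∀ g, D.M.Reachable (D.vx 1) (D.vx g) :=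
    gen_ind D (SimpleGraph.Reachable.refl _) (fun g h => by rwa [mk_s])
      (fun g h => h.trans (adj0 D g true).reachable)
  haveI : Nonempty D.V := ⟨D.vx 1⟩
  refine ⟨fun u v => ?_⟩
  obtain ⟨g, rfl⟩ := mk_surj D u
  obtain ⟨h, rfl⟩ := mk_surj D v
  exact (key g).symm.trans (key h)

theorem inf : Infinite D.V := by
  by_contra h
  rw [not_infinite_iff_finite] at h
  haveI := Fintype.ofFinite D.V
  have := all_mem D ⊥ Finset.univ (fun v => ⟨v, Finset.mem_univ _, 1, Subgroup.one_mem _, rfl⟩)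
    (D.β true)
  rw [Subgroup.mem_bot] at this
  have h2 := lmh_mk D (D.β true) 1
  rw [this, mul_one] at h2
  exact f1 D 1 true (by rw [one_mul]; exact h2.symm)

include D in
theorem no_col : ¬ (∀ (V : Type) (G : SimpleGraph V),
      (∀ v : V, (G.neighborSet v).Finite) →
      (∃ S : Finset V, ∀ v : V, ∃ s ∈ S, ∃ φ : G ≃g G, φ s = v) →
      (∃ u v w x : V, G.Adj u v ∧ G.Adj w x ∧ G.Reachable u w ∧ s(u, v) ≠ s(w, x)) →
      ∃ (C : Type) (c : Sym2 V → C),
        (∃ u v w x : V, G.Adj u v ∧ G.Adj w x ∧ G.Reachable u w ∧ c s(u, v) ≠ c s(w, x)) ∧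
        (∃ S : Finset V, ∀ v : V, ∃ s ∈ S, ∃ φ : G ≃g G,
          (∀ a b : V, G.Adj a b → c s(φ a, φ b) = c s(a, b)) ∧ φ s = v)) := by
  intro H
  obtain ⟨C, c, ⟨u, v, w, x, h1, h2, -, h3⟩, S, hS⟩ := H D.V D.M
    (fun v => Set.finite_of_ncard_ne_zero (by rw [deg]; norm_num))
    ⟨{D.vx 1}, fun v => ⟨_, Finset.mem_singleton_self _, trans D _ v⟩⟩
    ⟨_, _, _, _, adj0 D 1 true, adj0 D 1 false, SimpleGraph.Reachable.refl _, by
      intro h
      rcases Sym2.eq_iff.1 h with h | h
      · simpa using f2a D h.2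
      · exact f1 D _ _ h.2⟩
  let Γ : Subgroup (D.M ≃g D.M) :=
    { carrier := {φ | ∀ a b, D.M.Adj a b → c s(φ a, φ b) = c s(a, b)}
      one_mem' := fun a b _ => rfl
      mul_mem' := fun {φ ψ} hφ hψ a b h => by
        change c s(φ (ψ a), φ (ψ b)) = _
        rw [hφ _ _ (ψ.map_adj_iff.2 h), hψ _ _ h]
      inv_mem' := fun {φ} hφ a b h => by
        have := hφ _ _ (φ.symm.map_adj_iff.2 h)
        rw [RelIso.apply_symm_apply, RelIso.apply_symm_apply] at this
        exact this.symm }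
  have hΓ := all_mem D Γ S hS
  have key : ∀ p q, D.M.Adj p q → c s(p, q) = c s(D.vx 1, D.vx (D.β true)) := by
    intro p q h
    have a0 : D.M.Adj (D.vx 1) (D.vx (D.β true)) := by simpa using adj0 D 1 true
    obtain ⟨a, ⟨rfl, rfl⟩ | ⟨rfl, rfl⟩⟩ := edge D h
    · exact hΓ a _ _ a0
    · rw [Sym2.eq_swap]; exact hΓ a _ _ a0
  exact h3 ((key _ _ h1).trans (key _ _ h2).symm)

include D in
theorem no_factor : ¬ (∀ (V : Type) (G : SimpleGraph V), Infinite V → G.Connected →
      (∀ v : V, (G.neighborSet v).ncard = 4) →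
      (∀ u v : V, ∃ φ : G ≃g G, φ u = v) →
      ∃ H : SimpleGraph V, H ≤ G ∧ (∀ v : V, (H.neighborSet v).ncard = 2) ∧
        ∃ S : Finset V, ∀ v : V, ∃ s ∈ S, ∃ φ : G ≃g G,
          (∀ x y : V, H.Adj (φ x) (φ y) ↔ H.Adj x y) ∧ φ s = v) := by
  intro H
  obtain ⟨K, hK, h2, S, hS⟩ := H D.V D.M (inf D) (conn D) (deg D) (trans D)
  let Γ : Subgroup (D.M ≃g D.M) :=
    { carrier := {φ | ∀ x y, K.Adj (φ x) (φ y) ↔ K.Adj x y}
      one_mem' := fun a b => Iff.rfl
      mul_mem' := fun {φ ψ} hφ hψ a b => by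
        change K.Adj (φ (ψ a)) (φ (ψ b)) ↔ _
        rw [hφ, hψ]
      inv_mem' := fun {φ} hφ a b => by
        have := hφ (φ.symm a) (φ.symm b)
        rw [RelIso.apply_symm_apply, RelIso.apply_symm_apply] at this
        exact this.symm }
  have hΓ := all_mem D Γ S hS
  have key : ∀ p q, D.M.Adj p q → (K.Adj p q ↔ K.Adj (D.vx 1) (D.vx (D.β true))) := by
    intro p q h
    obtain ⟨a, ⟨rfl, rfl⟩ | ⟨rfl, rfl⟩⟩ := edge D h
    · exact hΓ a _ _
    · rw [K.adj_comm]; exact hΓ a _ _
  obtain ⟨y, hy⟩ : (K.neighborSet (D.vx 1)).Nonempty :=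
    Set.nonempty_of_ncard_ne_zero (by rw [h2]; norm_num)
  have h0 := (key _ _ (hK hy)).1 hy
  have : K = D.M := le_antisymm hK fun p q h => (key p q h).2 h0
  have h4 := deg D (D.vx 1)
  rw [← this, h2] at h4
  norm_num at h4

end Pool.Agent.H.MP_a8e1ec_co
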