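import Pool.Agent.H.MP_a8e1ec_co.A

/-!
A subgroup of Thompson's group `T`, acting on `ℕ` by prefix replacement on binary digits,
generated by `s`, `b` with `s^2 = b^3 = (s b)^13 = 1` and with no proper finite index subgroup.
-/

namespace Pool.Agent.H.MP_a8e1ec_co

/-- letters -/
inductive Lt | s | b | c

/-- action of the letters on `ℕ` -/
def ap : Lt → ℕ → ℕ
  | .s, n =>
    if n % 4 = 0 then 5 + 16 * (n / 4) else if n % 8 = 2 then 13 + 16 * (n / 8)
    else if n % 8 = 6 then 3 + 8 * (n / 8) else if n % 8 = 1 then 7 + 8 * (n / 8)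
    else if n % 16 = 5 then 4 * (n / 16) else if n % 16 = 13 then 2 + 8 * (n / 16)
    else if n % 8 = 3 then 6 + 8 * (n / 8) else 1 + 8 * (n / 8)
  | .b, n => if n % 2 = 0 then 1 + 4 * (n / 2) else if n % 4 = 1 then n + 2 else 2 * (n / 4)
  | .c, n => if n % 2 = 0 then 3 + 4 * (n / 2) else if n % 4 = 3 then n - 2 else 2 * (n / 4)

/-- exponent of the slope on a residue class mod 16 -/
def ex : Lt → ℕ → ℕ
  | .s, n =>
    if n % 4 = 0 then 6 else if n % 8 = 2 then 5
    else if n % 8 = 6 then 4 else if n % 8 = 1 then 4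
    else if n % 16 = 5 then 2 else if n % 16 = 13 then 3 else 4
  | .b, n => if n % 2 = 0 then 5 else if n % 4 = 1 then 4 else 3
  | .c, n => if n % 2 = 0 then 5 else if n % 4 = 3 then 4 else 3

theorem ap16 (l : Lt) (r y : ℕ) : ap l (r + 16 * y) = ap l r + 2 ^ ex l r * y := by
  have a2 : (r + 16 * y) % 2 = r % 2 := by omega
  have a4 : (r + 16 * y) % 4 = r % 4 := by omega
  have a8 : (r + 16 * y) % 8 = r % 8 := by omega
  have a16 : (r + 16 * y) % 16 = r % 16 := by omega
  cases l <;> simp only [ap, ex, a2, a4, a8, a16] <;> split_ifs <;> omega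

theorem apK (l : Lt) (r K m : ℕ) (h : 4 ≤ K) :
    ap l (r + 2 ^ K * m) = ap l r + 2 ^ (K - 4 + ex l r) * m := by
  obtain ⟨k, rfl⟩ := Nat.exists_eq_add_of_le h
  have : 2 ^ (4 + k) * m = 16 * (2 ^ k * m) := by ring
  rw [this, ap16, Nat.add_sub_cancel_left]
  ring

/-- evaluation of a word -/
def ev : List Lt → ℕ → ℕ
  | [], n => n
  | l :: w, n => ap l (ev w n)

/-- evaluation on a residue class -/
def run : List Lt → ℕ → ℕ → Option (ℕ × ℕ)
  | [], r, K => some (r, K)
  | l :: w, r, K => match run w r K with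
    | none => none
    | some (r', K') => if 4 ≤ K' then some (ap l r', K' - 4 + ex l r') else none

theorem run_ok (w : List Lt) (r K : ℕ) : ∀ r' K', run w r K = some (r', K') →
    ∀ m, ev w (r + 2 ^ K * m) = r' + 2 ^ K' * m := by
  induction w with
  | nil =>
    intro r' K' h m
    simp only [run, Option.some.injEq, Prod.mk.injEq] at h
    rw [← h.1, ← h.2]; rfl
  | cons l w ih =>
    intro r' K' h m
    simp only [run] at h
    split at h
    · cases h
    · rename_i a A hA
      split_ifs at h with h4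
      simp only [Option.some.injEq, Prod.mk.injEq] at h
      rw [ev, ih a A hA m, apK _ _ _ _ h4, h.1, h.2]

/-- adaptive check on a residue class -/
def chk (P : ℕ → ℕ → ℕ → ℕ → Bool) (w : List Lt) : ℕ → ℕ → ℕ → Bool
  | 0, _, _ => false
  | f + 1, r, K => (match run w r K with
      | none => false
      | some (r', K') => P r K r' K') || (chk P w f r (K + 1) && chk P w f (r + 2 ^ K) (K + 1))

theorem chk_ok (P : ℕ → ℕ → ℕ → ℕ → Bool) (Q : ℕ → ℕ → Prop)
    (hP : ∀ r K r' K', P r K r' K' = true → ∀ m, Q (r + 2 ^ K * m) (r' + 2 ^ K' * m))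
    (w : List Lt) (f : ℕ) : ∀ r K, chk P w f r K = true →
      ∀ m, Q (r + 2 ^ K * m) (ev w (r + 2 ^ K * m)) := by
  induction f with
  | zero => intro r K h; simp [chk] at h
  | succ f ih =>
    intro r K h m
    simp only [chk, Bool.or_eq_true, Bool.and_eq_true] at h
    rcases h with h | h
    · split at h
      · cases h
      · rename_i a A hA
        rw [run_ok w r K a A hA]; exact hP _ _ _ _ h m
    · rcases Nat.even_or_odd' m with ⟨k, rfl | rfl⟩
      · have : r + 2 ^ K * (2 * k) = r + 2 ^ (K + 1) * k := by ring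
        rw [this]; exact ih _ _ h.1 k
      · have : r + 2 ^ K * (2 * k + 1) = r + 2 ^ K + 2 ^ (K + 1) * k := by ring
        rw [this]; exact ih _ _ h.2 k

theorem fix_ok (w : List Lt) (r K : ℕ)
    (h : chk (fun r K r' K' => r' == r && K' == K) w 30 r K = true) (n : ℕ)
    (hn : n % 2 ^ K = r) : ev w n = n := by
  have := chk_ok _ (fun n n' => n' = n) (by
    intro r K r' K' h m
    simp only [Bool.and_eq_true, beq_iff_eq] at h
    rw [h.1, h.2]) w 30 r K h (n / 2 ^ K)
  rwa [← hn, Nat.mod_add_div] at this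

theorem into_ok (w : List Lt) (a e r K : ℕ)
    (h : chk (fun _ _ r' K' => decide (e ≤ K') && r' % 2 ^ e == a) w 30 r K = true) (n : ℕ)
    (hn : n % 2 ^ K = r) : ev w n % 2 ^ e = a := by
  have := chk_ok _ (fun _ n' => n' % 2 ^ e = a) (by
    intro r K r' K' h m
    simp only [Bool.and_eq_true, beq_iff_eq, decide_eq_true_eq] at h
    obtain ⟨k, rfl⟩ := Nat.exists_eq_add_of_le h.1
    rw [pow_add, mul_assoc, Nat.add_mul_mod_self_left, h.2]) w 30 r K h (n / 2 ^ K)
  rwa [← hn, Nat.mod_add_div] at this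

theorem id_ok (w : List Lt) (h : chk (fun r K r' K' => r' == r && K' == K) w 30 0 0 = true)
    (n : ℕ) : ev w n = n := fix_ok w 0 0 h n (Nat.mod_one n)

open Lt

/-- the letters as permutations -/
def pm : Lt → Equiv.Perm ℕ
  | .s => ⟨ap s, ap s, id_ok [s, s] (by decide +kernel), id_ok [s, s] (by decide +kernel)⟩
  | .b => ⟨ap b, ap c, id_ok [c, b] (by decide +kernel), id_ok [b, c] (by decide +kernel)⟩
  | .c => ⟨ap c, ap b, id_ok [b, c] (by decide +kernel), id_ok [c, b] (by decide +kernel)⟩

/-- the group -/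
def GG : Subgroup (Equiv.Perm ℕ) := Subgroup.closure {pm s, pm b}

/-- the letters in the group -/
def gn : Lt → GG
  | .s => ⟨pm s, Subgroup.subset_closure (Or.inl rfl)⟩
  | .b => ⟨pm b, Subgroup.subset_closure (Or.inr rfl)⟩
  | .c => ⟨pm c, GG.inv_mem (x := pm b) (Subgroup.subset_closure (Or.inr rfl))⟩

/-- the value of a word -/
def wd (w : List Lt) : GG := (w.map gn).prod

theorem wd_ap (w : List Lt) (n : ℕ) : (wd w).1 n = ev w n := by
  induction w with
  | nil => rfl
  | cons l w ih =>
    have : wd (l :: w) = gn l * wd w := by simp [wd]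
    rw [this, ev, ← ih]
    cases l <;> rfl

theorem wd_one (w : List Lt) (h : chk (fun r K r' K' => r' == r && K' == K) w 30 0 0 = true) :
    wd w = 1 := Subtype.ext (Equiv.ext fun n => (wd_ap w n).trans (id_ok w h n))

theorem wd_ne (w : List Lt) (h : ev w 0 ≠ 0 ∨ ev w 21 ≠ 21) : wd w ≠ 1 := by
  intro e
  rw [← wd_ap, ← wd_ap, e] at h
  exact h.elim (fun h => h rfl) (fun h => h rfl)

/-- the signed generator -/
def bl (e : Bool) : Lt := if e then b else c

/-- search over all sign sequences -/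
def go : ℕ → List Bool → ℕ → ℕ → Bool
  | 0, l, x, y => x != 0 || y != 21 || l == List.replicate 13 true || l == List.replicate 13 false
  | k + 1, l, x, y => go k (true :: l) (ap s (ap b x)) (ap s (ap b y)) &&
      go k (false :: l) (ap s (ap c x)) (ap s (ap c y))

theorem go_ok (k : ℕ) : ∀ (l : List Bool),
    go k l (((l.map fun e => gn s * gn (bl e)).prod).1 0)
      (((l.map fun e => gn s * gn (bl e)).prod).1 21) = true →
    ∀ l' : List Bool, l'.length = k →
      ((List.reverseAux l' l).map fun e => gn s * gn (bl e)).prod = 1 →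
      List.reverseAux l' l = List.replicate 13 true ∨
        List.reverseAux l' l = List.replicate 13 false := by
  induction k with
  | zero =>
    intro l h l' hl e
    rw [List.length_eq_zero_iff] at hl
    subst hl
    change (l.map _).prod = 1 at e
    rw [e] at h
    simpa [go] using h
  | succ k ih =>
    intro l h l' hl e
    cases l' with
    | nil => cases hl
    | cons a l' =>
      simp only [go, Bool.and_eq_true] at h
      cases a
      · exact ih (false :: l) h.2 l' (by simpa using hl) e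
      · exact ih (true :: l) h.1 l' (by simpa using hl) e

theorem go13 : go 13 [] 0 21 = true := by decide +kernel

theorem comm_of {x y t : Equiv.Perm ℕ} {W : ℕ → Prop} (hx : ∀ n, n % 4 = 0 → x n = n)
    (ht : ∀ n, n % 4 ≠ 0 → W (t n)) (hW : ∀ n, W n → n % 4 ≠ 0) (hy : ∀ n, W n → y n = n)
    (M : ℕ) : Commute (t ^ (M + 1) * x * (t ^ (M + 1))⁻¹) y := by
  have hT : ∀ M n, n % 4 ≠ 0 → W ((t ^ (M + 1)) n) := by
    intro M
    induction M with
    | zero => simpa using ht
    | succ M ih => intro n hn; rw [pow_succ']; exact ht _ (hW _ (ih n hn))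
  set z := t ^ (M + 1) * x * (t ^ (M + 1))⁻¹ with hz
  have zf : ∀ n, ¬ W n → z n = n := by
    intro n hn
    have : ((t ^ (M + 1))⁻¹ n) % 4 = 0 := by
      by_contra h
      apply hn
      simpa using hT M _ h
    rw [hz, Equiv.Perm.mul_apply, Equiv.Perm.mul_apply, hx _ this]
    simp
  apply Equiv.ext
  intro n
  change z (y n) = y (z n)
  by_cases h : W n
  · have : W (z n) := by
      by_contra h'
      have := z.injective (zf _ h')
      rw [this] at h'; exact h' h
    rw [hy n h, hy _ this]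
  · have : ¬ W (y n) := fun h' => by
      have := y.injective (hy _ h')
      rw [this] at h'; exact h h'
    rw [zf n h, zf _ this]

theorem alg {Q : Type} [Group Q] (s b : Q) (hs : s * s = 1) (hb : b ^ 3 = 1)
    (hu : (s * b) ^ 13 = 1)
    (c3 : Commute ((s * b) ^ 3 * b) (((s * b) ^ 3)⁻¹ * ((s * b) ^ 3 * b) * (s * b) ^ 3))
    (c6 : Commute ((s * b) ^ 3 * b) (((s * b) ^ 6)⁻¹ * ((s * b) ^ 3 * b) * (s * b) ^ 6))
    (c9 : Commute ((s * b) ^ 3 * b) (((s * b) ^ 9)⁻¹ * ((s * b) ^ 3 * b) * (s * b) ^ 9)) :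
    s = 1 ∧ b = 1 := by
  obtain ⟨u, hu'⟩ : ∃ u, u = s * b := ⟨_, rfl⟩
  have hs' : s = u * b⁻¹ := by rw [hu', mul_inv_cancel_right]
  rw [← hu'] at hu c3 c6 c9
  have e9 : (u ^ 3)⁻¹ * (u ^ 3 * b) * u ^ 3 * ((u ^ 6)⁻¹ * (u ^ 3 * b) * u ^ 6) *
      ((u ^ 9)⁻¹ * (u ^ 3 * b) * u ^ 9) = b ^ 3 * u ^ 9 := by
    rw [show b ^ 3 = b * b * b by rw [pow_succ, pow_two]]; group
  have c := (c3.mul_right c6).mul_right c9
  rw [e9, hb, one_mul] at c
  have c' := c.pow_right 3
  rw [← pow_mul, show 9 * 3 = 13 * 2 + 1 from rfl, pow_succ u (13 * 2), pow_mul, hu, one_pow,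
    one_mul] at c'
  have cb : Commute b u := by
    have := ((Commute.refl u).pow_left 3).inv_left.mul_left c'
    rwa [inv_mul_cancel_left] at this
  have h2 : u ^ 2 = b ^ 2 := by
    rw [hs', ← pow_two, cb.symm.inv_right.mul_pow, inv_pow, mul_inv_eq_one] at hs
    exact hs
  have h6 : u ^ 6 = 1 := by
    rw [show 6 = 2 * 3 from rfl, pow_mul, h2, ← pow_mul, mul_comm, pow_mul, hb, one_pow]
  have u1 : u = 1 := by
    rw [show 13 = 6 * 2 + 1 from rfl, pow_succ, pow_mul, h6, one_pow, one_mul] at hu; exact hu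
  have b1 : b = 1 := by
    rw [pow_succ, ← h2, u1, one_pow, one_mul] at hb; exact hb
  exact ⟨by rw [hs', u1, b1]; simp, b1⟩

theorem gc : gn c = (gn b)⁻¹ := rfl

theorem gs : gn s * gn s = 1 := by simpa [wd] using wd_one [s, s] (by decide +kernel)

theorem gb : gn b ^ 3 = 1 := by simpa [wd, pow_succ, mul_assoc] using wd_one [b, b, b] (by decide +kernel)

theorem wd_app (v w : List Lt) : wd (v ++ w) = wd v * wd w := by simp [wd]

theorem wd_sb (k : ℕ) : wd (List.replicate k [s, b]).flatten = (gn s * gn b) ^ k := by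
  induction k with
  | zero => rfl
  | succ k ih => rw [List.replicate_succ, List.flatten_cons, wd_app, ih, pow_succ']; simp [wd]

theorem wd_cs (k : ℕ) : wd (List.replicate k [c, s]).flatten = ((gn s * gn b) ^ k)⁻¹ := by
  induction k with
  | zero => rfl
  | succ k ih =>
    rw [List.replicate_succ, List.flatten_cons, wd_app, ih, pow_succ, mul_inv_rev, mul_inv_rev,
      inv_eq_of_mul_eq_one_right gs]
    simp [wd, gc]

theorem gu : (gn s * gn b) ^ 13 = 1 := by rw [← wd_sb]; exact wd_one _ (by decide +kernel)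

/-- the element with a fixed cone -/
def xw : List Lt := (List.replicate 3 [s, b]).flatten ++ [b]

/-- its conjugates -/
def yw (k : ℕ) : List Lt :=
  (List.replicate k [c, s]).flatten ++ xw ++ (List.replicate k [s, b]).flatten

theorem wd_x : wd xw = (gn s * gn b) ^ 3 * gn b := by rw [xw, wd_app, wd_sb]; simp [wd]

theorem wd_y (k : ℕ) : wd (yw k) =
    ((gn s * gn b) ^ k)⁻¹ * ((gn s * gn b) ^ 3 * gn b) * (gn s * gn b) ^ k := by
  rw [yw, wd_app, wd_app, wd_x, wd_sb, wd_cs]

theorem cm (k a e : ℕ) (t : List Lt) (ha : a % 2 = 1) (he : 1 ≤ e)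
    (h1 : chk (fun r K r' K' => r' == r && K' == K) (yw k) 30 a e = true)
    (h2 : chk (fun _ _ r' K' => decide (e ≤ K') && r' % 2 ^ e == a) t 30 1 1 = true)
    (h3 : chk (fun _ _ r' K' => decide (e ≤ K') && r' % 2 ^ e == a) t 30 2 2 = true) (M : ℕ) :
    Commute (wd t ^ (M + 1) * wd xw * (wd t ^ (M + 1))⁻¹) (wd (yw k)) := by
  have := comm_of (x := (wd xw).1) (y := (wd (yw k)).1) (t := (wd t).1)
    (W := fun n => n % 2 ^ e = a)
    (fun n hn => (wd_ap _ _).trans (fix_ok xw 0 2 (by decide +kernel) n hn))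
    (fun n hn => by
      rw [wd_ap]
      by_cases h : n % 2 = 1
      · exact into_ok t a e 1 1 h2 n h
      · exact into_ok t a e 2 2 h3 n (by omega))
    (fun n hn => by
      have : n % 2 ^ e % 2 = n % 2 := Nat.mod_mod_of_dvd n (dvd_pow_self 2 (by omega))
      omega)
    (fun n hn => (wd_ap _ _).trans (fix_ok _ a e h1 n hn)) M
  exact Subtype.ext this

theorem ggen : Subgroup.closure {gn s, gn b} = ⊤ := by
  have := Subgroup.closure_closure_coe_preimage (k := {pm s, pm b})
  rw [eq_top_iff]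
  refine le_trans (le_of_eq this.symm) (Subgroup.closure_mono ?_)
  rintro g (h | h)
  · exact Or.inl (Subtype.ext h)
  · exact Or.inr (Subtype.ext h)

theorem nf (H : Subgroup GG) (hH : H.FiniteIndex) : H = ⊤ := by
  let N := H.normalCore
  let π := QuotientGroup.mk' N
  obtain ⟨M, hM⟩ : ∃ M, Nat.card (GG ⧸ N) = M + 1 := Nat.exists_eq_succ_of_ne_zero Nat.card_pos.ne'
  have key : ∀ k t, Commute (wd t ^ (M + 1) * wd xw * (wd t ^ (M + 1))⁻¹) (wd (yw k)) →
      Commute ((π (gn s) * π (gn b)) ^ 3 * π (gn b)) (((π (gn s) * π (gn b)) ^ k)⁻¹ *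
        ((π (gn s) * π (gn b)) ^ 3 * π (gn b)) * (π (gn s) * π (gn b)) ^ k) := by
    intro k t h
    have := h.map π
    rw [map_mul, map_mul, map_inv, map_pow, ← hM, pow_card_eq_one', one_mul, inv_one, mul_one,
      wd_x, wd_y] at this
    simpa only [map_mul, map_pow, map_inv] using this
  obtain ⟨h1, h2⟩ := alg (π (gn s)) (π (gn b)) (by rw [← map_mul, gs, map_one])
    (by rw [← map_pow, gb, map_one]) (by rw [← map_mul, ← map_pow, gu, map_one])
    (key 3 [s, c, s, b, s, b, s, c, s, b, s, c, s, c, s, b, s, b] (cm 3 1 3 _ rfl (by omega)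
      (by decide +kernel) (by decide +kernel) (by decide +kernel) M))
    (key 6 [c, s, b, s, c, s, b, s, b, s, c, s, b, s, c, s, c, s, b, s, b] (cm 6 15 4 _ rfl
      (by omega) (by decide +kernel) (by decide +kernel) (by decide +kernel) M))
    (key 9 [s, b, s, c, s, c, s, b, s, b, s, c, s, b, s, c, s, c, s, b, s, b] (cm 9 1 4 _ rfl
      (by omega) (by decide +kernel) (by decide +kernel) (by decide +kernel) M))
  rw [eq_top_iff, ← ggen, Subgroup.closure_le]
  rintro g (rfl | rfl)
  · exact H.normalCore_le ((QuotientGroup.eq_one_iff _).1 h1)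
  · exact H.normalCore_le ((QuotientGroup.eq_one_iff _).1 h2)

/-- the data -/
def dat : Dat GG where
  s := gn s
  β := fun e => gn (bl e)
  ss := gs
  βi := fun e => by cases e <;> rfl
  ββ := fun e => by
    have := gb
    cases e
    · change gn c * gn c = gn b
      rw [gc, ← mul_inv_rev, inv_eq_iff_mul_eq_one, ← this, pow_succ, pow_two]
    · change gn b * gn b = gn c
      rw [gc, eq_inv_iff_mul_eq_one, ← this, pow_succ, pow_two]
  s1 := by simpa [wd] using wd_ne [s] (by decide +kernel)
  β1 := fun e => by simpa [wd] using wd_ne [bl e] (by revert e; decide +kernel)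
  h1 := fun e => by simpa [wd] using wd_ne [s, bl e] (by revert e; decide +kernel)
  h2 := fun e f => by
    simpa [wd, mul_assoc] using wd_ne [s, bl e, s, bl f] (by revert e f; decide +kernel)
  h3 := fun e f g => by
    simpa [wd, mul_assoc] using wd_ne [s, bl e, s, bl f, s, bl g] (by revert e f g; decide +kernel)
  rel := gu
  h13 := fun l hl e => by
    have := go_ok 13 [] go13 l.reverse (by simpa using hl) (by simpa [List.reverseAux_eq] using e)
    simpa [List.reverseAux_eq] using this
  gen := ggen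
  nf := nf

end Pool.Agent.H.MP_a8e1ec_co
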